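import Mathlib

set_option autoImplicit false

/-!
# Termwise homogenization of infinite sums of Brooks quasimorphisms

`FreeGroup ι` is the free group on the finite set `ι`; `g.toWord` is the reduced word of `g`, a list
of letters in `ι × Bool` (`(i, true)` is the generator `i`, `(i, false)` its inverse).
-/

namespace Pool.Agent.Results.MP_c1a8be_al.TermwiseFails

open Filter Topology FreeGroup

variable {ι : Type} [DecidableEq ι]

/-- The number of occurrences of the word `w` as a subword of the word `l`: the number of the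
suffixes of `l` that begin with `w`. -/
def occ (w l : List (ι × Bool)) : ℕ := l.tails.countP fun t => decide (w <+: t)

/-- `w` is a nontrivial non-self-overlapping word: no nonempty proper prefix of `w` is a suffix
of `w`. -/
def NSO (w : FreeGroup ι) : Prop :=
  w ≠ 1 ∧ ∀ p : List (ι × Bool), p ≠ [] → p <+: w.toWord → p <:+ w.toWord → p = w.toWord

/-- The small Brooks quasimorphism `h_w` for non-self-overlapping `w`: the number of occurrences of
`w` in `g` minus the number of occurrences of `w⁻¹` in `g`. -/
def h (w g : FreeGroup ι) : ℝ := (occ w.toWord g.toWord : ℝ) - occ w⁻¹.toWord g.toWord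

/-- The homogenization: the limit of `φ (g ^ n) / n`. -/
noncomputable def homog (φ : FreeGroup ι → ℝ) (g : FreeGroup ι) : ℝ :=
  limUnder atTop fun n : ℕ => φ (g ^ n) / n

/-- `φ` is a quasimorphism. -/
def IsQuasimorphism (φ : FreeGroup ι → ℝ) : Prop :=
  ∃ D : ℝ, ∀ g k : FreeGroup ι, |φ g + φ k - φ (g * k)| ≤ D

/-- `P` contains exactly one of `w`, `w⁻¹` for each non-self-overlapping word `w`, and nothing
else: the set `N⁺`. -/
def IsHalf (P : Set (FreeGroup ι)) : Prop :=
  (∀ w ∈ P, NSO w) ∧ ∀ w, NSO w → (w ∈ P ∧ w⁻¹ ∉ P) ∨ (w ∉ P ∧ w⁻¹ ∈ P)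

/-- `φ_α = ∑_{w ∈ N⁺} α_w h_w`. -/
noncomputable def phi (P : Set (FreeGroup ι)) (α : FreeGroup ι → ℝ) (g : FreeGroup ι) : ℝ :=
  ∑ᶠ w ∈ P, α w * h w g

/-- `φ̃_α = ∑_{w ∈ N⁺} α_w h̄_w`. -/
noncomputable def phiTilde (P : Set (FreeGroup ι)) (α : FreeGroup ι → ℝ) (g : FreeGroup ι) : ℝ :=
  ∑ᶠ w ∈ P, α w * homog (h w) g

/-! ### Counting -/

theorem occ_cons (w l : List (ι × Bool)) (a : ι × Bool) :
    occ w (a :: l) = (if w <+: a :: l then 1 else 0) + occ w l := by
  unfold occ
  rw [List.tails_cons, List.countP_cons]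
  simp only [decide_eq_true_eq]
  omega

theorem occ_nil {w : List (ι × Bool)} (hw : w ≠ []) : occ w [] = 0 := by
  unfold occ
  simp [hw]

theorem occ_eq_zero {w l : List (ι × Bool)} (hw : ¬ w <:+: l) : occ w l = 0 := by
  induction l with
  | nil =>
    apply occ_nil
    rintro rfl
    exact hw (List.nil_infix)
  | cons a l ih =>
    rw [occ_cons, ih, if_neg]
    · intro h1
      exact hw h1.isInfix
    · intro h1
      exact hw (h1.trans (List.suffix_cons a l).isInfix)

theorem occ_eq_zero_of_length {w l : List (ι × Bool)} (hw : l.length < w.length) : occ w l = 0 := by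
  apply occ_eq_zero
  intro h1
  have := h1.length_le
  omega

theorem le_occ_append {w : List (ι × Bool)} (hw : w ≠ []) (l₁ l₂ : List (ι × Bool)) :
    occ w l₁ + occ w l₂ ≤ occ w (l₁ ++ l₂) := by
  induction l₁ with
  | nil => simp [occ_nil hw]
  | cons a l ih =>
    rw [List.cons_append, occ_cons, occ_cons]
    have h1 : (if w <+: a :: l then 1 else 0) ≤ (if w <+: a :: (l ++ l₂) then 1 else 0) := by
      split_ifs with h1 h2
      · rfl
      · exact absurd (h1.trans (List.prefix_append (a :: l) l₂)) h2
      · omega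
      · rfl
    omega

theorem occ_append_le (w l₁ l₂ : List (ι × Bool)) :
    occ w (l₁ ++ l₂) ≤ occ w l₁ + occ w l₂ + min l₁.length w.length := by
  induction l₁ with
  | nil => simp
  | cons a l ih =>
    rw [List.cons_append, occ_cons, occ_cons, List.length_cons]
    by_cases h1 : w <+: a :: l
    · have h2 : w <+: a :: (l ++ l₂) := h1.trans (List.prefix_append (a :: l) l₂)
      rw [if_pos h1, if_pos h2]
      omega
    · rw [if_neg h1]
      by_cases h2 : w <+: a :: (l ++ l₂)
      · rw [if_pos h2]
        have h3 : l.length + 1 < w.length := by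
          by_contra h3
          push Not at h3
          apply h1
          rw [← List.cons_append] at h2
          exact List.prefix_of_prefix_length_le h2 (List.prefix_append _ _) (by simpa using h3)
        omega
      · rw [if_neg h2]
        omega

theorem occ_right [Fintype ι] {w : List (ι × Bool)} (hw : w ≠ []) (l : List (ι × Bool)) :
    occ w l = ∑ s : ι × Bool, occ (w ++ [s]) l + if w <:+ l then 1 else 0 := by
  induction l with
  | nil => simp [occ_nil hw, occ_nil, hw]
  | cons a l ih =>
    rw [occ_cons, ih]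
    simp only [occ_cons, Finset.sum_add_distrib]
    have key : (if w <+: a :: l then 1 else 0) + (if w <:+ l then 1 else 0) =
        ∑ s : ι × Bool, (if w ++ [s] <+: a :: l then 1 else 0) + (if w <:+ a :: l then 1 else 0) := by
      by_cases h1 : w <+: a :: l
      · rw [if_pos h1]
        obtain ⟨t, ht⟩ := h1
        cases t with
        | nil =>
          rw [List.append_nil] at ht
          have h2 : ¬ w <:+ l := by
            intro h3
            have := h3.length_le
            rw [ht] at this
            simp at this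
          have h3 : w <:+ a :: l := by rw [ht]
          rw [if_neg h2, if_pos h3]
          have h4 : ∀ s ∈ (Finset.univ : Finset (ι × Bool)), (if w ++ [s] <+: a :: l then 1 else 0) = 0 := by
            intro s _
            rw [if_neg]
            intro h5
            have := h5.length_le
            rw [← ht] at this
            simp at this
          rw [Finset.sum_eq_zero h4]
        | cons s₀ t =>
          have h2 : ∀ s : ι × Bool, w ++ [s] <+: a :: l ↔ s = s₀ := by
            intro s
            rw [← ht]
            constructor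
            · intro h3
              rw [List.prefix_append_right_inj] at h3
              simpa using h3
            · rintro rfl
              rw [List.prefix_append_right_inj]
              simp
          simp only [h2]
          rw [Finset.sum_ite_eq']
          simp only [Finset.mem_univ, if_true]
          have h3 : w <:+ a :: l ↔ w <:+ l := by
            rw [List.suffix_cons_iff]
            constructor
            · rintro (h4 | h4)
              · rw [← ht] at h4
                have := congrArg List.length h4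
                simp at this
              · exact h4
            · exact Or.inr
          simp only [h3]
      · rw [if_neg h1]
        have h4 : ∀ s ∈ (Finset.univ : Finset (ι × Bool)), (if w ++ [s] <+: a :: l then 1 else 0) = 0 := by
          intro s _
          rw [if_neg]
          intro h5
          exact h1 ((List.prefix_append w [s]).trans h5)
        rw [Finset.sum_eq_zero h4]
        have h3 : w <:+ a :: l ↔ w <:+ l := by
          rw [List.suffix_cons_iff]
          constructor
          · rintro (h5 | h5)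
            · exact absurd (by rw [h5]) h1
            · exact h5
          · exact Or.inr
        simp only [h3]
    omega

theorem occ_left [Fintype ι] {w : List (ι × Bool)} (hw : w ≠ []) (l : List (ι × Bool)) :
    occ w l = ∑ s : ι × Bool, occ (s :: w) l + if w <+: l then 1 else 0 := by
  induction l with
  | nil => simp [occ_nil hw, occ_nil, hw]
  | cons a l ih =>
    rw [occ_cons]
    simp only [occ_cons, Finset.sum_add_distrib, List.cons_prefix_cons]
    have h1 : ∑ s : ι × Bool, (if s = a ∧ w <+: l then 1 else 0) = if w <+: l then 1 else 0 := by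
      by_cases h2 : w <+: l
      · simp [h2]
      · simp [h2]
    rw [h1]
    omega

/-! ### Limits -/

theorem tendsto_of_bounded {u : ℕ → ℝ} {C : ℝ} (hu : ∀ n, |u n| ≤ C) :
    Tendsto (fun n : ℕ => u n / n) atTop (𝓝 0) := by
  have h1 : Tendsto (fun n : ℕ => C / (n : ℝ)) atTop (𝓝 0) :=
    tendsto_const_nhds.div_atTop tendsto_natCast_atTop_atTop
  have h2 : Tendsto (fun n : ℕ => -(C / (n : ℝ))) atTop (𝓝 0) := by
    simpa using h1.neg
  refine tendsto_of_tendsto_of_tendsto_of_le_of_le h2 h1 ?_ ?_
  · intro n
    simp only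
    rw [← neg_div]
    exact div_le_div_of_nonneg_right (neg_le_of_abs_le (hu n)) (Nat.cast_nonneg n)
  · intro n
    exact div_le_div_of_nonneg_right (le_of_abs_le (hu n)) (Nat.cast_nonneg n)

/-- the power of a word -/
def pw (c : List (ι × Bool)) (n : ℕ) : List (ι × Bool) := (List.replicate n c).flatten

omit [DecidableEq ι] in
theorem pw_add (c : List (ι × Bool)) (m n : ℕ) : pw c (m + n) = pw c m ++ pw c n := by
  unfold pw
  rw [← List.replicate_append_replicate, List.flatten_append]

theorem exists_lim_occ (w : List (ι × Bool)) (c : List (ι × Bool)) :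
    ∃ L : ℝ, Tendsto (fun n : ℕ => (occ w (pw c n) : ℝ) / n) atTop (𝓝 L) := by
  let u : ℕ → ℝ := fun n => (occ w (pw c n) : ℝ) + w.length
  have hsub : Subadditive u := by
    intro m n
    have h1 := occ_append_le w (pw c m) (pw c n)
    rw [← pw_add] at h1
    have h2 : occ w (pw c (m + n)) ≤ occ w (pw c m) + occ w (pw c n) + w.length := by
      omega
    have h3 : (occ w (pw c (m + n)) : ℝ) ≤ occ w (pw c m) + occ w (pw c n) + w.length := by
      exact_mod_cast h2
    simp only [u]
    linarith
  have hbdd : BddBelow (Set.range fun n => u n / n) := by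
    refine ⟨0, ?_⟩
    rintro _ ⟨n, rfl⟩
    positivity
  refine ⟨hsub.lim, ?_⟩
  have h1 := hsub.tendsto_lim hbdd
  have h2 : Tendsto (fun n : ℕ => ((w.length : ℝ)) / n) atTop (𝓝 0) :=
    tendsto_const_nhds.div_atTop tendsto_natCast_atTop_atTop
  have h3 := h1.sub h2
  rw [sub_zero] at h3
  refine h3.congr fun n => ?_
  simp only [u]
  ring

/-- The reduced word of a power. -/
theorem toWord_pow_succ (g : FreeGroup ι) (n : ℕ) :
    (g ^ (n + 1)).toWord = reduceCyclically.conjugator g.toWord ++
      pw (reduceCyclically g.toWord) (n + 1) ++ invRev (reduceCyclically.conjugator g.toWord) := by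
  rw [toWord_pow]
  exact reduceCyclically.reduce_flatten_replicate_succ isReduced_toWord n

theorem occ_pow_sub_bounded (w : List (ι × Bool)) (hw : w ≠ []) (g : FreeGroup ι) :
    ∃ C : ℝ, ∀ n : ℕ, |(occ w (g ^ n).toWord : ℝ) - occ w (pw (reduceCyclically g.toWord) n)| ≤ C := by
  set u := reduceCyclically.conjugator g.toWord
  set c := reduceCyclically g.toWord
  refine ⟨(occ w u + occ w (invRev u) + 2 * w.length + 1 : ℕ), fun n => ?_⟩
  cases n with
  | zero =>
    simp only [pow_zero, toWord_one, pw, List.replicate_zero, List.flatten_nil, sub_self, abs_zero]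
    positivity
  | succ n =>
    rw [toWord_pow_succ]
    change |((occ w (u ++ pw c (n + 1) ++ invRev u) : ℕ) : ℝ) - (occ w (pw c (n + 1)) : ℕ)| ≤ _
    have h1 := occ_append_le w (u ++ pw c (n + 1)) (invRev u)
    have h2 := occ_append_le w u (pw c (n + 1))
    have h3 := le_occ_append hw (u ++ pw c (n + 1)) (invRev u)
    have h4 := le_occ_append hw u (pw c (n + 1))
    rw [abs_le]
    constructor
    · have h5 : (occ w (pw c (n + 1)) : ℝ) ≤ occ w (u ++ pw c (n + 1) ++ invRev u) := by
        exact_mod_cast (by omega)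
      have h6 : (0 : ℝ) ≤ ((occ w u + occ w (invRev u) + 2 * w.length + 1 : ℕ) : ℝ) :=
        Nat.cast_nonneg _
      linarith
    · rw [sub_le_iff_le_add]
      exact_mod_cast (by omega)

theorem exists_lim_occ_pow {w : List (ι × Bool)} (hw : w ≠ []) (g : FreeGroup ι) :
    ∃ L : ℝ, Tendsto (fun n : ℕ => (occ w (g ^ n).toWord : ℝ) / n) atTop (𝓝 L) := by
  obtain ⟨L, hL⟩ := exists_lim_occ w (reduceCyclically g.toWord)
  obtain ⟨C, hC⟩ := occ_pow_sub_bounded w hw g
  refine ⟨L, ?_⟩
  have h1 := hL.add (tendsto_of_bounded hC)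
  rw [add_zero] at h1
  refine h1.congr fun n => ?_
  ring

theorem toWord_ne_nil {w : FreeGroup ι} (hw : w ≠ 1) : w.toWord ≠ [] := by
  intro h1
  exact hw (toWord_eq_nil_iff.1 h1)

/-- **The homogenization of `h_w` is a limit.** -/
theorem tendsto_homog {w : FreeGroup ι} (hw : w ≠ 1) (g : FreeGroup ι) :
    Tendsto (fun n : ℕ => h w (g ^ n) / n) atTop (𝓝 (homog (h w) g)) := by
  obtain ⟨L1, h1⟩ := exists_lim_occ_pow (toWord_ne_nil hw) g
  obtain ⟨L2, h2⟩ := exists_lim_occ_pow (toWord_ne_nil (inv_ne_one.2 hw)) g
  apply tendsto_nhds_limUnder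
  refine ⟨L1 - L2, (h1.sub h2).congr fun n => ?_⟩
  unfold h
  ring

omit [DecidableEq ι] in
theorem drop_pw (c : List (ι × Bool)) (n : ℕ) : (pw c n).drop c.length <+: pw c n := by
  cases n with
  | zero => simp [pw]
  | succ n =>
    have h1 : pw c (n + 1) = c ++ pw c n := by
      simp [pw, List.replicate_succ]
    have h2 : pw c (n + 1) = pw c n ++ c := by
      rw [pw_add]
      simp [pw]
    conv_lhs => rw [h1, List.drop_left]
    rw [h2]
    exact List.prefix_append _ _

theorem occ_pw_eq_zero {w : FreeGroup ι} (hw : NSO w) (c : List (ι × Bool))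
    (hc : c.length < w.toWord.length) (n : ℕ) : occ w.toWord (pw c n) = 0 := by
  apply occ_eq_zero
  rintro ⟨s, t, hst⟩
  rcases c.eq_nil_or_concat with rfl | ⟨_, _, hcc⟩
  · have h1 : pw ([] : List (ι × Bool)) n = [] := by simp [pw]
    rw [h1] at hst
    have h2 := congrArg List.length hst
    simp only [List.length_append, List.length_nil] at h2 hc
    omega
  have hcpos : 0 < c.length := by rw [hcc]; simp
  have h1 := drop_pw c n
  rw [← hst] at h1
  -- compare the word with its shift
  set W := w.toWord with hW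
  have h2 : (W.drop c.length) <+: W := by
    have e1 : ((s ++ W ++ t).drop c.length).drop s.length <+: (s ++ W ++ t).drop s.length := by
      exact h1.drop s.length
    rw [List.drop_drop] at e1
    have e2 : (s ++ W ++ t).drop s.length = W ++ t := by
      rw [List.append_assoc, List.drop_left]
    have e3 : (s ++ W ++ t).drop (c.length + s.length) = (W ++ t).drop c.length := by
      rw [Nat.add_comm, ← List.drop_drop, e2]
    rw [e2, e3, List.drop_append_of_le_length (by omega)] at e1
    have e4 : W.drop c.length <+: W ++ t := (List.prefix_append _ _).trans e1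
    exact List.prefix_of_prefix_length_le e4 (List.prefix_append _ _) (by simp)
  have h3 : W.drop c.length <:+ W := List.drop_suffix _ _
  have h4 : W.drop c.length ≠ [] := by
    rw [Ne, List.drop_eq_nil_iff]
    omega
  have h5 := congrArg List.length (hw.2 _ h4 h2 h3)
  rw [List.length_drop] at h5
  change W.length - c.length = W.length at h5
  omega

theorem NSO.inv {w : FreeGroup ι} (hw : NSO w) : NSO w⁻¹ := by
  refine ⟨inv_ne_one.2 hw.1, ?_⟩
  intro p hp h1 h2
  rw [toWord_inv] at h1 h2 ⊢
  have e : ∀ l : List (ι × Bool), invRev (invRev l) = l := fun l => invRev_invRev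
  have h3 : invRev p <:+ w.toWord := by
    obtain ⟨t, ht⟩ := h1
    refine ⟨invRev t, ?_⟩
    rw [← e w.toWord, ← ht, invRev_append]
  have h4 : invRev p <+: w.toWord := by
    obtain ⟨t, ht⟩ := h2
    refine ⟨invRev t, ?_⟩
    rw [← e w.toWord, ← ht, invRev_append]
  have h5 : invRev p ≠ [] := by
    intro h6
    apply hp
    rw [← e p, h6]
    simp [invRev]
  rw [← hw.2 _ h5 h4 h3, e]

theorem homog_eq_zero {w g : FreeGroup ι} (hw : NSO w) (hg : g.toWord.length < w.toWord.length) :
    homog (h w) g = 0 := by
  have hc : (reduceCyclically g.toWord).length ≤ g.toWord.length := by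
    have := congrArg List.length (reduceCyclically.conj_conjugator_reduceCyclically g.toWord)
    simp only [List.length_append] at this
    omega
  have hinv : w⁻¹.toWord.length = w.toWord.length := by
    rw [toWord_inv, invRev_length]
  obtain ⟨C1, h1⟩ := occ_pow_sub_bounded w.toWord (toWord_ne_nil hw.1) g
  obtain ⟨C2, h2⟩ := occ_pow_sub_bounded w⁻¹.toWord (toWord_ne_nil hw.inv.1) g
  have h3 : ∀ n : ℕ, |h w (g ^ n)| ≤ C1 + C2 := by
    intro n
    have e1 := h1 n
    have e2 := h2 n
    rw [occ_pw_eq_zero hw _ (by omega)] at e1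
    rw [occ_pw_eq_zero hw.inv _ (by omega)] at e2
    unfold h
    rw [Nat.cast_zero, sub_zero] at e1 e2
    rw [abs_le] at e1 e2 ⊢
    constructor <;> linarith [e1.1, e1.2, e2.1, e2.2]
  exact tendsto_nhds_unique (tendsto_homog hw.1 g) (tendsto_of_bounded h3)

/-! ### The coefficients -/

section Construction

variable (i j : ι)

/-- the word `x^(n+1) y x⁻¹` -/
def W (n : ℕ) : List (ι × Bool) := List.replicate (n + 1) (i, true) ++ [(j, true), (i, false)]

/-- the words `W n` and `W n s`, `s ≠ x` -/
def S : Set (List (ι × Bool)) :=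
  {l | (∃ n, l = W i j n) ∨ ∃ n s, s ≠ (i, true) ∧ l = W i j n ++ [s]}

open Classical in
/-- `1` for the words `W n`, `-1` for the words `W n s` -/
noncomputable def A (l : List (ι × Bool)) : ℝ :=
  if ∃ n, l = W i j n then 1 else if ∃ n s, s ≠ (i, true) ∧ l = W i j n ++ [s] then -1 else 0

/-- the coefficient map -/
noncomputable def al (w : FreeGroup ι) : ℝ := A i j w.toWord - A i j w⁻¹.toWord

variable {i j}

omit [DecidableEq ι] in
theorem W_length (n : ℕ) : (W i j n).length = n + 3 := by simp [W]

omit [DecidableEq ι] in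
theorem W_inj {m n : ℕ} (h1 : W i j m = W i j n) : m = n := by
  have := congrArg List.length h1
  simp only [W_length] at this
  omega

omit [DecidableEq ι] in
theorem W_ne (m n : ℕ) (s : ι × Bool) : W i j m ≠ W i j n ++ [s] := by
  intro h1
  have h2 : W i j m = (List.replicate (m + 1) (i, true) ++ [(j, true)]) ++ [(i, false)] := by
    simp [W]
  have h3 : W i j n = (List.replicate (n + 1) (i, true) ++ [(j, true)]) ++ [(i, false)] := by
    simp [W]
  rw [h2] at h1
  have h4 := List.append_inj_left' h1 rfl
  rw [h3] at h4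
  have h5 := List.append_inj_right' h4 rfl
  simp at h5

omit [DecidableEq ι] in
theorem A_W (n : ℕ) : A i j (W i j n) = 1 := by
  unfold A
  rw [if_pos ⟨n, rfl⟩]

omit [DecidableEq ι] in
theorem A_Ws (n : ℕ) {s : ι × Bool} (hs : s ≠ (i, true)) : A i j (W i j n ++ [s]) = -1 := by
  unfold A
  rw [if_neg, if_pos ⟨n, s, hs, rfl⟩]
  rintro ⟨m, hm⟩
  exact W_ne m n s hm.symm

omit [DecidableEq ι] in
theorem A_ne {l : List (ι × Bool)} (hl : l ∉ S i j) : A i j l = 0 := by
  unfold A
  unfold S at hl
  rw [Set.mem_ofPred_eq] at hl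
  push Not at hl
  rw [if_neg, if_neg]
  · rintro ⟨n, s, h1, h2⟩
    exact hl.2 n s h1 h2
  · rintro ⟨n, h1⟩
    exact hl.1 n h1

omit [DecidableEq ι] in
theorem S_head {l : List (ι × Bool)} (hl : l ∈ S i j) : ∃ n t, l = W i j n ++ t := by
  rcases hl with ⟨n, rfl⟩ | ⟨n, s, -, rfl⟩
  · exact ⟨n, [], by simp⟩
  · exact ⟨n, [s], rfl⟩

omit [DecidableEq ι] in
theorem S_inv (hij : i ≠ j) {l : List (ι × Bool)} (hl : l ∈ S i j) : invRev l ∉ S i j := by
  intro h1
  obtain ⟨n, t, hn⟩ := S_head h1
  have hr : invRev (W i j n) = [(i, true), (j, false)] ++ List.replicate (n + 1) (i, false) := by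
    simp [W, invRev]
  have key : ∀ (m : ℕ) (t t' : List (ι × Bool)),
      [(i, true), (j, false)] ++ t ≠ W i j m ++ t' := by
    intro m t t' h2
    cases m with
    | zero =>
      simp [W, List.replicate_succ] at h2
    | succ m =>
      simp [W, List.replicate_succ] at h2
  have key2 : ∀ (m : ℕ) (s : ι × Bool) (t t' : List (ι × Bool)),
      s :: ([(i, true), (j, false)] ++ t) ≠ W i j m ++ t' := by
    intro m s t t' h2
    cases m with
    | zero =>
      simp [W, List.replicate_succ] at h2
      exact hij h2.2.1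
    | succ m =>
      cases m with
      | zero => simp [W, List.replicate_succ] at h2
      | succ m => simp [W, List.replicate_succ] at h2
  rcases hl with ⟨m, rfl⟩ | ⟨m, s, -, rfl⟩
  · have hr : invRev (W i j m) = [(i, true), (j, false)] ++ List.replicate (m + 1) (i, false) := by
      simp [W, invRev]
    rw [hr] at hn
    exact key _ _ _ hn
  · have hr : invRev (W i j m ++ [s]) = (s.1, !s.2) ::
        ([(i, true), (j, false)] ++ List.replicate (m + 1) (i, false)) := by
      simp [W, invRev]
    rw [hr] at hn
    exact key2 _ _ _ _ hn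

omit [DecidableEq ι] in
theorem W_reduced (hij : i ≠ j) (n : ℕ) : IsReduced (W i j n) := by
  unfold W FreeGroup.IsReduced
  rw [List.isChain_append]
  refine ⟨?_, ?_, ?_⟩
  · exact List.isChain_replicate_of_rel _ (by simp)
  · simp [hij.symm]
  · intro a ha b hb
    have h1 := List.eq_of_mem_replicate (List.mem_of_mem_getLast? ha)
    simp at hb
    rw [h1, ← hb]
    intro _
    rfl

omit [DecidableEq ι] in
theorem Ws_reduced (hij : i ≠ j) (n : ℕ) {s : ι × Bool} (hs : s ≠ (i, true)) :
    IsReduced (W i j n ++ [s]) := by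
  have h1 := W_reduced hij n
  unfold FreeGroup.IsReduced at h1 ⊢
  rw [List.isChain_append]
  refine ⟨h1, by simp, ?_⟩
  intro a ha b hb
  simp [W] at ha hb
  rw [← ha, ← hb]
  intro h2
  obtain ⟨s1, s2⟩ := s
  simp only at h2
  subst h2
  cases s2
  · rfl
  · exact absurd rfl hs

omit [DecidableEq ι] in
theorem S_reduced (hij : i ≠ j) {l : List (ι × Bool)} (hl : l ∈ S i j) : IsReduced l := by
  rcases hl with ⟨n, rfl⟩ | ⟨n, s, hs, rfl⟩
  · exact W_reduced hij n
  · exact Ws_reduced hij n hs

omit [DecidableEq ι] in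
theorem W_nso (n : ℕ) (p : List (ι × Bool)) (hp : p ≠ []) (h1 : p <+: W i j n)
    (h2 : p <:+ W i j n) : p = W i j n := by
  have e : W i j n = (List.replicate (n + 1) (i, true) ++ [(j, true)]) ++ [(i, false)] := by
    simp [W]
  rw [e] at h1 h2 ⊢
  rw [List.prefix_concat_iff] at h1
  rcases h1 with h1 | h1
  · exact h1
  · rw [List.suffix_concat_iff] at h2
    rcases h2 with h2 | ⟨t, rfl, -⟩
    · exact absurd h2 hp
    · have h3 : (i, false) ∈ List.replicate (n + 1) (i, true) ++ [(j, true)] :=
        h1.subset (by simp)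
      simp at h3

omit [DecidableEq ι] in
theorem Ws_nso (n : ℕ) {s : ι × Bool} (hs : s ≠ (i, true)) (p : List (ι × Bool))
    (hp : p ≠ []) (h1 : p <+: W i j n ++ [s]) (h2 : p <:+ W i j n ++ [s]) :
    p = W i j n ++ [s] := by
  have e : W i j n = (List.replicate (n + 1) (i, true) ++ [(j, true)]) ++ [(i, false)] := by
    simp [W]
  rw [List.prefix_concat_iff] at h1
  rcases h1 with h1 | h1
  · exact h1
  · rw [List.suffix_concat_iff] at h2
    rcases h2 with h2 | ⟨t, rfl, ht⟩
    · exact absurd h2 hp
    · exfalso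
      rw [e] at h1 ht
      rw [List.suffix_concat_iff] at ht
      rcases ht with rfl | ⟨t', rfl, -⟩
      · rw [List.nil_append] at h1
        obtain ⟨t2, ht2⟩ := h1
        simp [List.replicate_succ] at ht2
        exact hs ht2.1
      · rw [List.prefix_concat_iff] at h1
        rcases h1 with h1 | h1
        · have h4 := List.append_inj_left' h1 rfl
          have h5 := List.append_inj_right' h4 rfl
          simp at h5
        · have h3 : (i, false) ∈ List.replicate (n + 1) (i, true) ++ [(j, true)] :=
            h1.subset (by simp)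
          simp at h3

theorem S_nso (hij : i ≠ j) {w : FreeGroup ι} (hw : w.toWord ∈ S i j) : NSO w := by
  have hne : w ≠ 1 := by
    rintro rfl
    rw [toWord_one] at hw
    rcases hw with ⟨n, h1⟩ | ⟨n, s, -, h1⟩
    · simp [W] at h1
    · simp at h1
  refine ⟨hne, ?_⟩
  rcases hw with ⟨n, h1⟩ | ⟨n, s, hs, h1⟩
  · rw [h1]
    exact W_nso n
  · rw [h1]
    exact Ws_nso n hs

theorem al_inv (w : FreeGroup ι) : al i j w⁻¹ = - al i j w := by
  unfold al
  rw [inv_inv]
  ring

theorem al_ne {w : FreeGroup ι} (h1 : w.toWord ∉ S i j) (h2 : w⁻¹.toWord ∉ S i j) :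
    al i j w = 0 := by
  unfold al
  rw [A_ne h1, A_ne h2, sub_zero]

theorem al_supp (hij : i ≠ j) {w : FreeGroup ι} (hw : ¬ NSO w) : al i j w = 0 := by
  apply al_ne
  · exact fun h1 => hw (S_nso hij h1)
  · intro h1
    apply hw
    rw [← inv_inv w]
    exact (S_nso hij h1).inv

theorem al_of_mem (hij : i ≠ j) {w : FreeGroup ι} (hw : w.toWord ∈ S i j) :
    al i j w = A i j w.toWord := by
  unfold al
  rw [toWord_inv, A_ne (S_inv hij hw), sub_zero]

/-- the index set of `S` -/
abbrev Idx (i : ι) : Type := ℕ × Option {s : ι × Bool // s ≠ (i, true)}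

/-- the words of `S` -/
def V (j : ι) : Idx i → List (ι × Bool)
  | (n, none) => W i j n
  | (n, some s) => W i j n ++ [s.1]

omit [DecidableEq ι] in
theorem V_mem (p : Idx i) : V j p ∈ S i j := by
  obtain ⟨n, _ | s⟩ := p
  · exact Or.inl ⟨n, rfl⟩
  · exact Or.inr ⟨n, s.1, s.2, rfl⟩

omit [DecidableEq ι] in
theorem V_inj : Function.Injective (V (i := i) j) := by
  rintro ⟨m, _ | s⟩ ⟨n, _ | t⟩ h1
  · rw [W_inj h1]
  · exact absurd h1 (W_ne _ _ _)
  · exact absurd h1.symm (W_ne _ _ _)
  · simp only [V] at h1
    have h2 := List.append_inj_left' h1 rfl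
    have h3 := List.append_inj_right' h1 rfl
    rw [W_inj h2]
    simp only [List.cons.injEq, and_true] at h3
    rw [Subtype.ext h3]

theorem toWord_V (hij : i ≠ j) (p : Idx i) : (mk (V j p)).toWord = V j p := by
  rw [toWord_mk]
  exact (S_reduced hij (V_mem p)).reduce_eq

theorem range_V (hij : i ≠ j) : Set.range (fun p : Idx i => mk (V j p)) =
    {w : FreeGroup ι | w.toWord ∈ S i j} := by
  ext w
  constructor
  · rintro ⟨p, rfl⟩
    rw [Set.mem_ofPred_eq, toWord_V hij]
    exact V_mem p
  · rintro (⟨n, h1⟩ | ⟨n, s, hs, h1⟩)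
    · exact ⟨(n, none), by simp only [V]; rw [← h1, mk_toWord]⟩
    · exact ⟨(n, some ⟨s, hs⟩), by simp only [V]; rw [← h1, mk_toWord]⟩

/-- The sum over `N⁺` as a sum over `S`. -/
theorem sum_half (hij : i ≠ j) {P : Set (FreeGroup ι)} (hP : IsHalf P) (H : FreeGroup ι → ℝ)
    (hH : ∀ w, NSO w → H w⁻¹ = - H w) :
    ∑ᶠ w ∈ P, al i j w * H w = ∑ᶠ p : Idx i, A i j (V j p) * H (mk (V j p)) := by
  classical
  set SS : Set (FreeGroup ι) := {w | w.toWord ∈ S i j} with hSS
  have h1 : ∑ᶠ w ∈ SS, al i j w * H w = ∑ᶠ p : Idx i, A i j (V j p) * H (mk (V j p)) := by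
    rw [hSS, ← range_V hij, finsum_mem_range]
    · refine finsum_congr fun p => ?_
      rw [al_of_mem hij (by rw [toWord_V hij]; exact V_mem p), toWord_V hij]
    · intro p q hpq
      apply V_inj (j := j)
      rw [← toWord_V hij p, ← toWord_V hij q]
      exact congrArg toWord hpq
  rw [← h1]
  -- restrict to the support
  set P' : Set (FreeGroup ι) := {w | w ∈ P ∧ (w ∈ SS ∨ w⁻¹ ∈ SS)} with hP'
  have h2 : ∑ᶠ w ∈ P, al i j w * H w = ∑ᶠ w ∈ P', al i j w * H w := by
    apply finsum_mem_inter_support_eq'
    intro w hw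
    rw [Function.mem_support] at hw
    rw [hP']
    constructor
    · intro h3
      refine ⟨h3, ?_⟩
      by_contra h4
      push Not at h4
      exact hw (by rw [al_ne h4.1 h4.2, zero_mul])
    · exact fun h3 => h3.1
  rw [h2]
  refine finsum_mem_eq_of_bijOn (fun w => if w ∈ SS then w else w⁻¹) ⟨?_, ?_, ?_⟩ ?_
  · rintro w ⟨h3, h4⟩
    by_cases h5 : w ∈ SS
    · simp [h5]
    · simpa [h5] using h4.resolve_left h5
  · rintro w ⟨h3, h4⟩ v ⟨h5, h6⟩ hwv
    simp only at hwv
    have hex : ∀ u ∈ P, u⁻¹ ∉ P := by
      intro u hu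
      rcases hP.2 u (hP.1 u hu) with h7 | h7
      · exact h7.2
      · exact absurd hu h7.1
    split_ifs at hwv with h7 h8 h8
    · exact hwv
    · exact absurd h3 (by rw [hwv]; exact hex v h5)
    · exact absurd h5 (by rw [← hwv]; exact hex w h3)
    · exact inv_injective hwv
  · intro w hw
    have hn := S_nso hij hw
    rcases hP.2 w hn with h3 | h3
    · exact ⟨w, ⟨h3.1, Or.inl hw⟩, by simp [hw]⟩
    · refine ⟨w⁻¹, ⟨h3.2, Or.inr (by rwa [inv_inv])⟩, ?_⟩
      have h4 : w⁻¹ ∉ SS := by
        rw [hSS, Set.mem_ofPred_eq, toWord_inv]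
        exact S_inv hij hw
      simp [h4]
  · rintro w ⟨h3, h4⟩
    by_cases h5 : w ∈ SS
    · simp [h5]
    · simp only [h5, if_false]
      rw [al_inv, hH w (hP.1 w h3)]
      ring

theorem h_inv (w g : FreeGroup ι) : h w⁻¹ g = - h w g := by
  unfold h
  rw [inv_inv]
  ring

theorem homog_inv {w : FreeGroup ι} (hw : w ≠ 1) (g : FreeGroup ι) :
    homog (h w⁻¹) g = - homog (h w) g := by
  have h1 := tendsto_homog (inv_ne_one.2 hw) g
  have h2 := (tendsto_homog hw g).neg
  refine tendsto_nhds_unique h1 (h2.congr fun n => ?_)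
  rw [h_inv]
  ring

omit [DecidableEq ι] in
theorem reduced_sub {w l : List (ι × Bool)} (hl : FreeGroup.IsReduced l) (hw : w <:+: l) :
    FreeGroup.IsReduced w := by
  obtain ⟨s, t, rfl⟩ := hw
  unfold FreeGroup.IsReduced at hl ⊢
  exact hl.left_of_append.right_of_append

theorem occ_nonreduced {w l : List (ι × Bool)} (hl : IsReduced l) (hw : ¬ IsReduced w) :
    occ w l = 0 := by
  apply occ_eq_zero
  intro h1
  exact hw (reduced_sub hl h1)

variable [Fintype ι]

open Classical in
theorem key_identity (hij : i ≠ j) (n : ℕ) (g : FreeGroup ι) :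
    h (mk (W i j n)) g =
      ∑ s : {s : ι × Bool // s ≠ (i, true)}, h (mk (W i j n ++ [s.1])) g +
      ((if W i j n <:+ g.toWord then 1 else 0) - (if invRev (W i j n) <+: g.toWord then 1 else 0)) := by
  have hW : W i j n ≠ [] := by simp [W]
  have hW' : invRev (W i j n) ≠ [] := by
    intro h1
    have := congrArg List.length h1
    rw [invRev_length, W_length] at this
    simp at this
  have e1 : (mk (W i j n)).toWord = W i j n := toWord_V hij (n, none)
  have e1' : ∀ s : {s : ι × Bool // s ≠ (i, true)}, (mk (W i j n ++ [s.1])).toWord = W i j n ++ [s.1] :=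
    fun s => toWord_V hij (n, some s)
  have e2 : ((mk (W i j n))⁻¹ : FreeGroup ι).toWord = invRev (W i j n) := by
    rw [toWord_inv, e1]
  have e2' : ∀ s : {s : ι × Bool // s ≠ (i, true)}, ((mk (W i j n ++ [s.1]))⁻¹ : FreeGroup ι).toWord =
      (s.1.1, !s.1.2) :: invRev (W i j n) := by
    intro s
    rw [toWord_inv, e1', invRev_append]
    simp [invRev]
  unfold h
  simp only [e1, e1', e2, e2']
  have f1 := occ_right hW g.toWord
  have f2 := occ_left hW' g.toWord
  rw [Fintype.sum_eq_add_sum_subtype_ne _ ((i, true) : ι × Bool)] at f1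
  have z1 : occ (W i j n ++ [(i, true)]) g.toWord = 0 := by
    apply occ_nonreduced isReduced_toWord
    intro h2
    have h3 : FreeGroup.IsReduced [(i, false), (i, true)] := by
      refine reduced_sub h2 ⟨List.replicate (n + 1) (i, true) ++ [(j, true)], [], ?_⟩
      simp [W]
    simp [FreeGroup.IsReduced] at h3
  have hinv : Function.Involutive fun s : ι × Bool => ((s.1, !s.2) : ι × Bool) := by
    rintro ⟨a, b⟩
    simp
  rw [← Equiv.sum_comp (hinv.toPerm), Fintype.sum_eq_add_sum_subtype_ne _ ((i, true) : ι × Bool)] at f2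
  have z2 : occ ((hinv.toPerm : Equiv.Perm (ι × Bool)) (i, true) :: invRev (W i j n)) g.toWord = 0 := by
    apply occ_nonreduced isReduced_toWord
    intro h2
    have h3 : FreeGroup.IsReduced [(i, false), (i, true)] := by
      refine reduced_sub h2 ⟨[], (j, false) :: List.replicate (n + 1) (i, false), ?_⟩
      simp [W, invRev]
    simp [FreeGroup.IsReduced] at h3
  rw [z1, zero_add] at f1
  rw [z2, zero_add] at f2
  have f2' : occ (invRev (W i j n)) g.toWord = ∑ s : {s : ι × Bool // s ≠ (i, true)},
      occ ((s.1.1, !s.1.2) :: invRev (W i j n)) g.toWord +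
      if invRev (W i j n) <+: g.toWord then 1 else 0 := f2
  rw [f1, f2', Finset.sum_sub_distrib]
  push_cast
  ring

/-- The sum over `S` as a finite sum. -/
theorem sum_finite (H : FreeGroup ι → ℝ) (J : ℕ)
    (hz : ∀ p : Idx i, J ≤ p.1 → H (mk (V j p)) = 0) :
    ∑ᶠ p : Idx i, A i j (V j p) * H (mk (V j p)) =
      ∑ n ∈ Finset.range J, (H (mk (W i j n)) -
        ∑ s : {s : ι × Bool // s ≠ (i, true)}, H (mk (W i j n ++ [s.1]))) := by
  classical
  rw [finsum_eq_sum_of_support_subset (s := Finset.range J ×ˢ Finset.univ)]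
  · rw [Finset.sum_product]
    refine Finset.sum_congr rfl fun n _ => ?_
    rw [Fintype.sum_option]
    simp only [V]
    rw [A_W, one_mul, sub_eq_add_neg, ← Finset.sum_neg_distrib]
    congr 1
    refine Finset.sum_congr rfl fun s _ => ?_
    rw [A_Ws n s.2]
    ring
  · intro p hp
    rw [Function.mem_support] at hp
    simp only [Finset.coe_product, Finset.coe_range, Finset.coe_univ, Set.mem_prod, Set.mem_Iio,
      Set.mem_univ, and_true]
    by_contra h1
    push Not at h1
    exact hp (by rw [hz p h1, mul_zero])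

omit [DecidableEq ι] [Fintype ι] in
theorem V_length (p : Idx i) : p.1 + 3 ≤ (V j p).length := by
  obtain ⟨n, _ | s⟩ := p
  · simp only [V]
    rw [W_length]
  · simp only [V]
    rw [List.length_append, W_length]
    omega

open Classical in
theorem phi_eq (hij : i ≠ j) {P : Set (FreeGroup ι)} (hP : IsHalf P) (g : FreeGroup ι) (J : ℕ)
    (hJ : g.toWord.length ≤ J) : phi P (al i j) g =
      ∑ n ∈ Finset.range J, ((if W i j n <:+ g.toWord then 1 else 0) -
        (if invRev (W i j n) <+: g.toWord then 1 else 0)) := by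
  unfold phi
  rw [sum_half hij hP (fun w => h w g) (fun w _ => h_inv w g), sum_finite (fun w => h w g) J]
  · refine Finset.sum_congr rfl fun n _ => ?_
    rw [key_identity hij]
    ring
  · intro p hp
    have h1 := V_length (j := j) p
    simp only [h]
    rw [occ_eq_zero_of_length, occ_eq_zero_of_length]
    · simp
    · rw [toWord_inv, invRev_length, toWord_V hij]
      omega
    · rw [toWord_V hij]
      omega

omit [Fintype ι] in
theorem V_nso (hij : i ≠ j) (p : Idx i) : NSO (mk (V j p)) :=
  S_nso hij (by rw [toWord_V hij]; exact V_mem p)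

theorem phiTilde_eq (hij : i ≠ j) {P : Set (FreeGroup ι)} (hP : IsHalf P) (g : FreeGroup ι) :
    phiTilde P (al i j) g = 0 := by
  classical
  unfold phiTilde
  rw [sum_half hij hP (fun w => homog (h w) g) (fun w hw => homog_inv hw.1 g),
    sum_finite (fun w => homog (h w) g) g.toWord.length]
  · refine Finset.sum_eq_zero fun n _ => ?_
    have h1 := tendsto_homog (V_nso hij (n, none)).1 g
    have h2 := tendsto_finsetSum Finset.univ
      (fun (s : {s : ι × Bool // s ≠ (i, true)}) _ => tendsto_homog (V_nso hij (n, some s)).1 g)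
    simp only [V] at h1 h2
    refine tendsto_nhds_unique (h1.sub h2) ?_
    refine (tendsto_of_bounded (C := 1)
      (u := fun m : ℕ => ((if W i j n <:+ (g ^ m).toWord then 1 else 0) -
        (if invRev (W i j n) <+: (g ^ m).toWord then 1 else 0))) ?_).congr ?_
    · intro m
      split_ifs <;> simp
    · intro m
      rw [key_identity hij, ← Finset.sum_div]
      ring
  · intro p hp
    have h1 := V_length (j := j) p
    apply homog_eq_zero (V_nso hij p)
    rw [toWord_V hij]
    omega

theorem phi_not_quasi (hij : i ≠ j) {P : Set (FreeGroup ι)} (hP : IsHalf P) :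
    ¬ IsQuasimorphism (phi P (al i j)) := by
  classical
  rintro ⟨D, hD⟩
  obtain ⟨m, hm⟩ := exists_nat_gt D
  have e1 : (of i ^ m : FreeGroup ι).toWord = List.replicate m (i, true) := toWord_of_pow i m
  have r2 : FreeGroup.IsReduced [((j, true) : ι × Bool), (i, false)] := by
    simp [FreeGroup.IsReduced, hij.symm]
  have e2 : (of j * (of i)⁻¹ : FreeGroup ι) = mk [(j, true), (i, false)] := rfl
  have e2' : (of j * (of i)⁻¹ : FreeGroup ι).toWord = [(j, true), (i, false)] := by
    rw [e2, toWord_mk]
    exact r2.reduce_eq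
  have e3 : (of i ^ m * (of j * (of i)⁻¹) : FreeGroup ι).toWord =
      List.replicate m (i, true) ++ [(j, true), (i, false)] := by
    rw [toWord_mul, e1, e2']
    apply FreeGroup.IsReduced.reduce_eq
    unfold FreeGroup.IsReduced
    rw [List.isChain_append]
    refine ⟨List.isChain_replicate_of_rel _ (by simp), r2, ?_⟩
    intro a ha b hb
    have h1 := List.eq_of_mem_replicate (List.mem_of_mem_getLast? ha)
    simp at hb
    rw [h1, ← hb]
    intro _
    rfl
  have hWr : ∀ n, invRev (W i j n) = [(i, true), (j, false)] ++ List.replicate (n + 1) (i, false) := by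
    intro n
    simp [W, invRev]
  have p1 : phi P (al i j) (of i ^ m) = 0 := by
    rw [phi_eq hij hP _ m (by rw [e1]; simp)]
    refine Finset.sum_eq_zero fun n _ => ?_
    rw [if_neg, if_neg, sub_zero]
    · intro h1
      have h2 : (j, false) ∈ List.replicate m ((i, true) : ι × Bool) := by
        rw [← e1]
        apply h1.subset
        rw [hWr]
        simp
      simpa using List.eq_of_mem_replicate h2
    · intro h1
      have h2 : (i, false) ∈ List.replicate m ((i, true) : ι × Bool) := by
        rw [← e1]
        apply h1.subset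
        simp [W]
      simpa using List.eq_of_mem_replicate h2
  have p2 : phi P (al i j) (of j * (of i)⁻¹) = 0 := by
    rw [phi_eq hij hP _ 2 (by rw [e2']; simp)]
    refine Finset.sum_eq_zero fun n _ => ?_
    rw [if_neg, if_neg, sub_zero]
    · intro h1
      have h2 := h1.length_le
      rw [invRev_length, W_length, e2'] at h2
      simp at h2
    · intro h1
      have h2 := h1.length_le
      rw [W_length, e2'] at h2
      simp at h2
  have p3 : phi P (al i j) (of i ^ m * (of j * (of i)⁻¹)) = m := by
    rw [phi_eq hij hP _ (m + 2) (by rw [e3]; simp)]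
    have h1 : ∀ n ∈ Finset.range (m + 2), ((if W i j n <:+ (of i ^ m * (of j * (of i)⁻¹)).toWord
        then (1 : ℝ) else 0) - (if invRev (W i j n) <+: (of i ^ m * (of j * (of i)⁻¹)).toWord
        then 1 else 0)) = if n < m then 1 else 0 := by
      intro n _
      rw [e3]
      have h2 : ¬ invRev (W i j n) <+: List.replicate m (i, true) ++ [(j, true), (i, false)] := by
        intro h3
        have h4 : (j, false) ∈ List.replicate m (i, true) ++ [(j, true), (i, false)] := by
          apply h3.subset
          rw [hWr]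
          simp
        simp [hij.symm] at h4
      rw [if_neg h2, sub_zero]
      congr 1
      rw [eq_iff_iff]
      constructor
      · intro h3
        have h4 := h3.length_le
        rw [W_length, List.length_append, List.length_replicate] at h4
        simp at h4
        omega
      · intro h3
        refine ⟨List.replicate (m - (n + 1)) (i, true), ?_⟩
        unfold W
        rw [← List.append_assoc, List.replicate_append_replicate]
        congr 2
        omega
    rw [Finset.sum_congr rfl h1, ← Finset.sum_filter, Finset.sum_const, nsmul_eq_mul, mul_one]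
    congr 1
    have h2 : (Finset.range (m + 2)).filter (fun n => n < m) = Finset.range m := by
      ext n
      simp only [Finset.mem_filter, Finset.mem_range]
      omega
    rw [h2, Finset.card_range]
  have h1 := hD (of i ^ m) (of j * (of i)⁻¹)
  rw [p1, p2, p3] at h1
  simp at h1
  linarith

end Construction

omit [DecidableEq ι] in
/-- There is a choice of `N⁺`. -/
theorem exists_half [DecidableEq ι] : ∃ P : Set (FreeGroup ι), IsHalf P := by
  classical
  let r := (WellOrderingRel : FreeGroup ι → FreeGroup ι → Prop)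
  refine ⟨{w | NSO w ∧ r w w⁻¹}, fun w hw => hw.1, fun w hw => ?_⟩
  have hne : w ≠ w⁻¹ := by
    intro h1
    apply hw.1
    have h2 : w ^ 2 = 1 := by
      rw [pow_two]
      nth_rewrite 2 [h1]
      exact mul_inv_cancel w
    exact (pow_eq_one_iff_left (by norm_num)).1 h2
  rcases trichotomous_of r w w⁻¹ with h1 | h1 | h1
  · refine Or.inl ⟨⟨hw, h1⟩, fun h2 => ?_⟩
    have h3 := h2.2
    rw [inv_inv] at h3
    exact asymm_of r h1 h3
  · exact absurd h1 hne
  · refine Or.inr ⟨fun h2 => asymm_of r h1 h2.2, hw.inv, ?_⟩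
    rw [inv_inv]
    exact h1

/-- **Termwise homogenization fails.** -/
theorem result : ∀ (ι : Type) [Fintype ι] [DecidableEq ι] [Nontrivial ι],
    (∃ P : Set (FreeGroup ι), IsHalf P) ∧
    (∀ w : FreeGroup ι, NSO w → ∀ g : FreeGroup ι,
      Tendsto (fun n : ℕ => h w (g ^ n) / n) atTop (𝓝 (homog (h w) g))) ∧
    (∀ g : FreeGroup ι, {w : FreeGroup ι | NSO w ∧ (h w g ≠ 0 ∨ homog (h w) g ≠ 0)}.Finite) ∧
    ∃ α : FreeGroup ι → ℝ, (∀ w, α w⁻¹ = - α w) ∧ (∀ w, ¬ NSO w → α w = 0) ∧
      (∀ w, |α w| ≤ 1) ∧
      ∀ P : Set (FreeGroup ι), IsHalf P →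
        (∀ g, phiTilde P α g = 0) ∧ IsQuasimorphism (phiTilde P α) ∧ ¬ IsQuasimorphism (phi P α) := by
  classical
  intro ι _ _ _
  obtain ⟨i, j, hij⟩ := exists_pair_ne ι
  refine ⟨exists_half, fun w hw g => tendsto_homog hw.1 g, ?_, al i j, al_inv,
    fun w hw => al_supp hij hw, ?_, fun P hP => ⟨phiTilde_eq hij hP, ?_, phi_not_quasi hij hP⟩⟩
  · intro g
    have h1 : {l : List (ι × Bool) | l.length ≤ g.toWord.length}.Finite :=
      List.finite_length_le _ _
    refine (h1.preimage (f := toWord) toWord_injective.injOn).subset ?_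
    rintro w ⟨hw, h2⟩
    rw [Set.mem_preimage, Set.mem_ofPred_eq]
    by_contra h3
    push Not at h3
    rcases h2 with h2 | h2
    · apply h2
      unfold h
      rw [occ_eq_zero_of_length h3, occ_eq_zero_of_length]
      · simp
      · rw [toWord_inv, invRev_length]
        exact h3
    · exact h2 (homog_eq_zero hw h3)
  · intro w
    by_cases h1 : w.toWord ∈ S i j
    · rw [al_of_mem hij h1]
      unfold A
      split_ifs <;> simp
    · unfold al
      rw [A_ne h1]
      unfold A
      split_ifs <;> simp
  · refine ⟨0, fun g k => ?_⟩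
    rw [phiTilde_eq hij hP, phiTilde_eq hij hP, phiTilde_eq hij hP]
    simp

end Pool.Agent.Results.MP_c1a8be_al.TermwiseFails
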